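import Pool.Agent.helper37.NE.SpecC

set_option autoImplicit false

/-! Row ne:YNG of problem MP_baa4d7_al (the chain sum of `hf`). -/

namespace Pool.Agent.NE

open Pool.Agent.helper58.DC Pool.Agent.DI Pool.Agent.GR Pool.Agent.OB Pool.Agent.DR Pool.Agent.FI Pool.Agent.FI3 Pool.Agent.FI4 Pool.Agent.FI4I Pool.Agent.LE Pool.Agent.L5 Pool.Agent.NAB Pool.Agent.ND

theorem YNG_fun (hYCB : YCB_stmt) (p : ℕ) (M : Ideal (integralClosure ℤ ℂ)) (hS : Setup p M) (G : Type) [Group G] [Finite G] (G₀ : Subgroup G)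
    (hN : G₀.Normal) (χ₀ : G → ℂ) (hχ : χ₀ ∈ IrrOn G₀) (hst : ∀ g : G, SB M G₀ (cjF g χ₀) χ₀) (d : ℤ) (C : Finset (Subgroup G)) (hC : NCh p G₀ ⊥ C) :
    hf p M G₀ G₀ (omega χ₀) d (nrm C) = hB p M G₀ χ₀ d (nrm C) := by
  unfold hf hB
  have h1 : {φ : G → ℂ | φ ∈ IrrOn (nrm C ⊓ G₀) ∧ (∀ n ∈ nrm C, funMap (MulAut.conj n) φ = φ) ∧ Defect p (nrm C ⊓ G₀) φ d ∧ Cov M G₀ (omega χ₀) φ} =
      {φ : G → ℂ | φ ∈ IrrOn (nrm C ⊓ G₀) ∧ SB M G₀ φ χ₀ ∧ Defect p (nrm C ⊓ G₀) φ d ∧ ∀ δ ∈ nrm C, cjF δ φ = φ} := by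
    ext φ
    constructor
    · rintro ⟨a1, a2, a3, a4⟩
      exact ⟨a1, (hYCB p M hS G G₀ hN χ₀ hχ hst C hC φ a1).1 a4, a3, a2⟩
    · rintro ⟨a1, a2, a3, a4⟩
      exact ⟨a1, a4, a3, (hYCB p M hS G G₀ hN χ₀ hχ hst C hC φ a1).2 a2⟩
  have h2 : Nat.card {φ : G → ℂ // φ ∈ IrrOn (nrm C ⊓ G₀) ∧ (∀ n ∈ nrm C, funMap (MulAut.conj n) φ = φ) ∧ Defect p (nrm C ⊓ G₀) φ d ∧ Cov M G₀ (omega χ₀) φ} =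
      {φ : G → ℂ | φ ∈ IrrOn (nrm C ⊓ G₀) ∧ SB M G₀ φ χ₀ ∧ Defect p (nrm C ⊓ G₀) φ d ∧ ∀ δ ∈ nrm C, cjF δ φ = φ}.ncard := by
    rw [← h1]
    rfl
  rw [h2]

theorem YNG (hYNF : YNF_stmt) (hYCB : YCB_stmt) (hFNO : FNO_stmt) : YNG_stmt := by
  intro p e m M hS h1 h2 G _ _ G₀ hN χ₀ hχ hst z x hU d
  haveI : Fact p.Prime := ⟨hS.pr⟩
  have hb : IsPGroup p (⊥ : Subgroup G) := IsPGroup.of_bot
  rw [← hYNF p e m M hS h1 h2 G G₀ hN χ₀ hχ z x hU d,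
    hFNO G p G₀ ⊥ ⊤ (hf p M G₀ G₀ (omega χ₀) d) hb bot_le, hFNO G p G₀ ⊥ ⊤ (hB p M G₀ χ₀ d) hb bot_le]
  refine finsum_mem_congr rfl fun C hC => ?_
  rw [top_inf_eq, YNG_fun hYCB p M hS G G₀ hN χ₀ hχ hst d C hC]

end Pool.Agent.NE
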