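import Pool.Agent.helper37.NE.SpecA
import Pool.Agent.helper25.NA.NTG

set_option autoImplicit false

/-! Row ne:YTG of problem MP_baa4d7_al (toggle on chains of subgroups of `G₀` with smallest term `R`; copy of NTG). -/

namespace Pool.Agent.NE

open Pool.Agent.helper58.DC Pool.Agent.DI Pool.Agent.GR Pool.Agent.OB Pool.Agent.DR Pool.Agent.FI Pool.Agent.FI3 Pool.Agent.FI4 Pool.Agent.FI4I Pool.Agent.LE Pool.Agent.L5 Pool.Agent.NAB Pool.Agent.ND

theorem YTG : YTG_stmt := by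
  classical
  intro Γ _ _ p _ G₀ R E F hE hEG hER
  refine NTG_toggle {C | PCh p G₀ R C ∧ E ≤ nrm C} (NTG_t E) (fun C => F (nz E ⊓ nrm C)) ?_
  intro C hC D' hD'
  obtain ⟨hC, hEC⟩ : PCh p G₀ R C ∧ E ≤ nrm C := hC
  -- the largest term
  obtain ⟨P, hP⟩ : ∃ P, NTG_top E C P := by
    have hne : (C.filter fun Q => ¬ E ≤ Q).Nonempty := ⟨R, Finset.mem_filter.2 ⟨hC.mem, hER⟩⟩
    obtain ⟨P, hP⟩ := Finset.exists_maximal hne
    have hP1 := Finset.mem_filter.1 hP.prop
    refine ⟨P, hP1.1, hP1.2, fun Q hQ hQY => ?_⟩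
    rcases hC.chain.total hQ hP1.1 with h | h
    · exact h
    · exact hP.le_of_ge (Finset.mem_filter.2 ⟨hQ, hQY⟩) h
  have ht := NTG_t_eq hP
  have hEP : E ≤ nz P := fun y hy => NTG_nrm.1 (hEC hy) P hP.1
  set T := P ⊔ E with hT
  have hET : E ≤ T := le_sup_right
  have hPT : P ≤ T := le_sup_left
  have hRP : R ≤ P := hC.bot P hP.1
  have hTP : P ≠ T := fun h => hP.2.1 (h ▸ hET)
  have hTR : R ≠ T := fun h => hER (h ▸ hET)
  have hTp : IsPGroup p T := IsPGroup.to_sup_of_normal_left' (hC.pg P hP.1) hE hEP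
  have hcmp : ∀ Q ∈ C, Q ≤ T ∨ T ≤ Q := by
    intro Q hQ
    by_cases h : E ≤ Q
    · right
      rcases hC.chain.total hQ hP.1 with h1 | h1
      · exact absurd (h.trans h1) hP.2.1
      · exact sup_le h1 h
    · left
      exact (hP.2.2 Q hQ h).trans hPT
  have hmem : ∀ Q, Q ≠ T → (Q ∈ D' ↔ Q ∈ C) := by
    intro Q hQ
    rcases hD' with h | h
    · rw [h, Finset.mem_insert, ht]
      exact ⟨fun h => h.resolve_left hQ, Or.inr⟩
    · rw [h, Finset.mem_erase, ht]
      exact ⟨fun h => h.2, fun h => ⟨hQ, h⟩⟩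
  have hPD : NTG_top E D' P := by
    refine ⟨(hmem P hTP).2 hP.1, hP.2.1, fun Q hQ hQY => hP.2.2 Q ((hmem Q ?_).1 hQ) hQY⟩
    rintro rfl
    exact hQY hET
  have hDch : PCh p G₀ R D' := by
    refine ⟨?_, (hmem R hTR).2 hC.mem, ?_, ?_, ?_⟩
    · intro Q hQ Q' hQ' hne
      have hQ : Q ∈ D' := hQ
      have hQ' : Q' ∈ D' := hQ'
      by_cases h : Q = T
      · subst h
        exact (hcmp Q' ((hmem Q' (Ne.symm hne)).1 hQ')).symm
      · by_cases h' : Q' = T
        · subst h'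
          exact hcmp Q ((hmem Q h).1 hQ)
        · exact hC.chain.total ((hmem Q h).1 hQ) ((hmem Q' h').1 hQ')
    · intro Q hQ
      by_cases h : Q = T
      · subst h
        exact hRP.trans hPT
      · exact hC.bot Q ((hmem Q h).1 hQ)
    · intro Q hQ
      by_cases h : Q = T
      · subst h
        exact sup_le (hC.le P hP.1) hEG
      · exact hC.le Q ((hmem Q h).1 hQ)
    · intro Q hQ
      by_cases h : Q = T
      · subst h
        exact hTp
      · exact hC.pg Q ((hmem Q h).1 hQ)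
  -- normalisers
  have key : ∀ z : Γ, z ∈ nz E → (z ∈ nrm D' ↔ z ∈ nrm C) := by
    intro z hz
    rw [NTG_nrm, NTG_nrm]
    refine ⟨fun h Q hQ => ?_, fun h Q hQ => ?_⟩
    · by_cases h' : Q = T
      · subst h'
        exact NTG_nz_sup (h P hPD.1) hz
      · exact h Q ((hmem Q h').2 hQ)
    · by_cases h' : Q = T
      · subst h'
        exact NTG_nz_sup (h P hP.1) hz
      · exact h Q ((hmem Q h').1 hQ)
  refine ⟨⟨hDch, fun y hy => (key y (Subgroup.le_normalizer hy)).2 (hEC hy)⟩,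
    (NTG_t_eq hPD).trans ht.symm, ?_⟩
  have heq : nz E ⊓ nrm D' = nz E ⊓ nrm C := by
    ext z
    rw [Subgroup.mem_inf, Subgroup.mem_inf]
    exact and_congr_right fun hz => key z hz
  show F (nz E ⊓ nrm D') = F (nz E ⊓ nrm C)
  rw [heq]

end Pool.Agent.NE
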